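import Mathlib
import Pool.Agent.M4074.Final

/-!
Affine copies of `{0, 1, 3}` in sets of `n` elements of abelian groups: the extremal number is
`n² / 3 + O(n)`, for the integers, for every torsion-free group, and for every group without
nonzero elements of small order.

The integer bound `T(A) ≤ |A|² / 3 + 7 |A|` comes from the argument for the frozen statement
`S08333` (folder `Pool/Agent/M4074`), which counts the solutions of `3 y = 2 x + z` in `A` with the
diagonal included.  Torsion-free groups are reduced to the integers by a linear functional which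
is injective on the given set, and groups without small torsion are reduced to torsion-free groups
by a limit of groups.
-/

set_option autoImplicit false

open Filter Topology

universe u

namespace Pool.Agent.Results.MP_b15886_co.TorsionFreeThird

open Pool.Agent.M4074H Pool.Agent.M4074R

/-- The copies of `{0, 1, 3}` in a finite subset `A` of an abelian group: the pairs `(x, y)` of
distinct elements of `A` with `x + 3 (y - x) ∈ A`. -/
noncomputable def copies {G : Type*} [AddCommGroup G] (A : Finset G) : Finset (G × G) := by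
  classical
  exact (A ×ˢ A).filter fun p => p.1 ≠ p.2 ∧ p.1 + 3 • (p.2 - p.1) ∈ A

/-- `T(A)`, the number of copies of `{0, 1, 3}` in `A`. -/
noncomputable def T {G : Type*} [AddCommGroup G] (A : Finset G) : ℕ := (copies A).card

/-- `M(n)`, the maximum of `T(A)` over the sets `A` of `n` integers. -/
noncomputable def M (n : ℕ) : ℕ := sSup {k | ∃ A : Finset ℤ, A.card = n ∧ T A = k}

/-- No nonzero element of `G` has order at most `m`. -/
def NoSmallTorsion (G : Type*) [AddCommGroup G] (m : ℕ) : Prop :=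
  ∀ k : ℕ, 0 < k → k ≤ m → ∀ g : G, k • g = 0 → g = 0

lemma mem_copies {G : Type*} [AddCommGroup G] (A : Finset G) (p : G × G) :
    p ∈ copies A ↔ (p.1 ∈ A ∧ p.2 ∈ A) ∧ p.1 ≠ p.2 ∧ p.1 + 3 • (p.2 - p.1) ∈ A := by
  classical
  unfold copies
  rw [Finset.mem_filter, Finset.mem_product]

lemma NN_bound (A : Finset ℤ) : (NN A A (tr A) : ℝ) ≤ (A.card : ℝ) ^ 2 / 3 + 8 * A.card := by
  have hR : R1Prop := Pool.Agent.M4074S.R1_of_S4 Pool.Agent.M4074S.s4
  have h2 : (NN A A (tr A) : ℝ) ≤ (A.card : ℝ) ^ 2 / 3 + err 8 5 A.card := by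
    apply H_T
    rcases A.eq_empty_or_nonempty with rfl | hne
    · exact PP_all 8 5 (by norm_num) (by norm_num) (cruxSingle dprop) (cruxDouble dprop)
        (cruxMixed hR) 0 0 ∅ ∅ (by simp) cls_empty
    · apply PP_all 8 5 (by norm_num) (by norm_num) (cruxSingle dprop) (cruxDouble dprop)
        (cruxMixed hR) (A.max' hne - A.min' hne).toNat (A.min' hne) A ∅ _ cls_empty
      intro x hx
      have h1 := A.min'_le x hx
      have h2 := A.le_max' x hx
      omega
  have h3 := err_le 8 5 (by norm_num) A.card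
  linarith

/-- The integer bound, with the diagonal taken out. -/
lemma T_int (A : Finset ℤ) : (T A : ℝ) ≤ (A.card : ℝ) ^ 2 / 3 + 7 * A.card := by
  classical
  have h1 : T A + A.card ≤ NN A A (tr A) := by
    have hd : Disjoint ((copies A).image fun p : ℤ × ℤ => (p.1, p.1 + 3 * (p.2 - p.1)))
        (A.image fun x : ℤ => (x, x)) := by
      rw [Finset.disjoint_left]
      rintro q hq hq'
      rw [Finset.mem_image] at hq hq'
      obtain ⟨p, hp, rfl⟩ := hq
      obtain ⟨x, _, hx⟩ := hq'
      rw [mem_copies] at hp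
      simp only [Prod.mk.injEq] at hx
      exact hp.2.1 (by omega)
    have hc1 : ((copies A).image fun p : ℤ × ℤ => (p.1, p.1 + 3 * (p.2 - p.1))).card = T A := by
      unfold T
      apply Finset.card_image_of_injective
      rintro ⟨x, y⟩ ⟨x', y'⟩ h
      simp only [Prod.mk.injEq] at h ⊢
      omega
    have hc2 : (A.image fun x : ℤ => (x, x)).card = A.card := by
      apply Finset.card_image_of_injective
      intro x y h
      exact (Prod.mk.injEq _ _ _ _ ▸ h).1
    rw [← hc1]
    rw [show A.card = (A.image fun x : ℤ => (x, x)).card from hc2.symm]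
    rw [← Finset.card_union_of_disjoint hd]
    unfold NN
    apply Finset.card_le_card
    intro q hq
    rw [Finset.mem_union, Finset.mem_image, Finset.mem_image] at hq
    rw [Finset.mem_filter, Finset.mem_product]
    rcases hq with ⟨p, hp, rfl⟩ | ⟨x, hx, rfl⟩
    · rw [mem_copies] at hp
      obtain ⟨⟨h1, h2⟩, _, h3⟩ := hp
      simp only [nsmul_eq_mul] at h3
      refine ⟨⟨h1, by exact_mod_cast h3⟩, ?_⟩
      simp only [tr, Finset.mem_image]
      exact ⟨p.2, h2, by ring⟩
    · refine ⟨⟨hx, hx⟩, ?_⟩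
      simp only [tr, Finset.mem_image]
      exact ⟨x, hx, by ring⟩
  have h2 := NN_bound A
  have h1' : (T A : ℝ) + A.card ≤ (NN A A (tr A) : ℝ) := by exact_mod_cast h1
  linarith

/-- An additive map injective on `A` does not lose copies. -/
lemma T_le_image {G H : Type*} [AddCommGroup G] [AddCommGroup H] [DecidableEq H] (A : Finset G)
    (f : G → H) (hf : Set.InjOn f A)
    (hadd : ∀ x ∈ A, ∀ y ∈ A, ∀ z ∈ A, x + 3 • (y - x) = z → f x + 3 • (f y - f x) = f z) :
    T A ≤ T (A.image f) := by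
  unfold T
  apply Finset.card_le_card_of_injOn (fun p : G × G => (f p.1, f p.2))
  · intro p hp
    rw [Finset.mem_coe, mem_copies] at hp
    rw [Finset.mem_coe, mem_copies]
    refine ⟨⟨Finset.mem_image_of_mem _ hp.1.1, Finset.mem_image_of_mem _ hp.1.2⟩, ?_, ?_⟩
    · intro h
      exact hp.2.1 (hf hp.1.1 hp.1.2 h)
    · rw [hadd p.1 hp.1.1 p.2 hp.1.2 _ hp.2.2 rfl]
      exact Finset.mem_image_of_mem _ hp.2.2
  · rintro ⟨x, y⟩ hp ⟨x', y'⟩ hp' h
    rw [Finset.mem_coe, mem_copies] at hp hp'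
    simp only [Prod.mk.injEq] at h ⊢
    exact ⟨hf hp.1.1 hp'.1.1 h.1, hf hp.1.2 hp'.1.2 h.2⟩

/-- A finite subset of a free abelian group of finite rank is mapped injectively into the
integers by some additive map. -/
lemma exists_functional_pi {ι : Type*} [Finite ι] (A : Finset (ι → ℤ)) :
    ∃ φ : (ι → ℤ) →+ ℤ, Set.InjOn φ A := by
  classical
  have : Fintype ι := Fintype.ofFinite ι
  let S := {p : (ι → ℤ) × (ι → ℤ) // p ∈ A ×ˢ A ∧ p.1 ≠ p.2}
  let v : S → (ι → ℚ) := fun p i => ((p.1.1 i - p.1.2 i : ℤ) : ℚ)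
  have hv : ∀ p, v p ≠ 0 := by
    intro p h
    apply p.2.2
    funext i
    have := congrFun h i
    simp only [v, Pi.zero_apply, Int.cast_eq_zero] at this
    omega
  have : Finite S := by
    apply Set.Finite.to_subtype (s := {p : (ι → ℤ) × (ι → ℤ) | p ∈ A ×ˢ A ∧ p.1 ≠ p.2})
    exact (A ×ˢ A).finite_toSet.subset fun p hp => hp.1
  obtain ⟨f, hf⟩ := Module.exists_dual_forall_apply_ne_zero (K := ℚ) v hv
  set c : ι → ℚ := fun i => f (Pi.single i 1) with hc
  have hfv : ∀ w : ι → ℚ, f w = ∑ i, w i * c i := by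
    intro w
    conv_lhs => rw [← Finset.univ_sum_single w]
    rw [map_sum]
    apply Finset.sum_congr rfl
    intro i _
    have : (Pi.single i (w i) : ι → ℚ) = w i • Pi.single i (1 : ℚ) := by
      rw [← Pi.single_smul, smul_eq_mul, mul_one]
    rw [this, map_smul, smul_eq_mul]
  set D : ℕ := ∏ i, (c i).den with hD
  have hDpos : (D : ℚ) ≠ 0 := by
    rw [hD]
    exact_mod_cast Finset.prod_ne_zero_iff.2 fun i _ => (c i).den_nz
  have hint : ∀ i, ∃ a : ℤ, (a : ℚ) = D * c i := by
    intro i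
    refine ⟨(c i).num * ∏ j ∈ Finset.univ.erase i, ((c j).den : ℤ), ?_⟩
    have h1 : (D : ℚ) = (c i).den * ∏ j ∈ Finset.univ.erase i, ((c j).den : ℚ) := by
      rw [hD, ← Finset.mul_prod_erase Finset.univ _ (Finset.mem_univ i)]
      push_cast
      rfl
    rw [h1]
    push_cast
    have h2 : ((c i).num : ℚ) = (c i).den * c i := by
      rw [mul_comm]; exact (Rat.mul_den_eq_num (c i)).symm
    rw [h2]
    ring
  choose a ha using hint
  refine ⟨{ toFun := fun w => ∑ i, w i * a i, map_zero' := by simp,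
            map_add' := fun w w' => by
              simp only [Pi.add_apply, add_mul, Finset.sum_add_distrib] }, ?_⟩
  intro x hx y hy hxy
  by_contra hne
  simp only [AddMonoidHom.coe_mk, ZeroHom.coe_mk] at hxy
  apply hf ⟨(x, y), Finset.mem_product.2 ⟨hx, hy⟩, hne⟩
  rw [hfv]
  have h1 : (D : ℚ) * ∑ i, (((x i - y i : ℤ) : ℚ)) * c i = 0 := by
    rw [Finset.mul_sum]
    have : ∀ i, (D : ℚ) * ((((x i - y i : ℤ) : ℚ)) * c i) = ((x i * a i - y i * a i : ℤ) : ℚ) := by
      intro i
      have := ha i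
      push_cast
      rw [this]
      ring
    rw [Finset.sum_congr rfl fun i _ => this i, ← Int.cast_sum, Finset.sum_sub_distrib, hxy,
      sub_self, Int.cast_zero]
  exact (mul_eq_zero.1 h1).resolve_left hDpos

/-- A finite subset of a torsion-free abelian group is mapped injectively into the integers by an
additive map of the subgroup generated by it. -/
lemma exists_functional {G : Type*} [AddCommGroup G] (hG : ∀ m, NoSmallTorsion G m)
    (A : Finset G) : ∃ φ : AddSubgroup.closure (A : Set G) →+ ℤ,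
      ∀ x (hx : x ∈ AddSubgroup.closure (A : Set G)) y (hy : y ∈ AddSubgroup.closure (A : Set G)),
        x ∈ A → y ∈ A → φ ⟨x, hx⟩ = φ ⟨y, hy⟩ → x = y := by
  classical
  have hmem : ∀ x ∈ A, x ∈ AddSubgroup.closure (A : Set G) := fun x hx =>
    AddSubgroup.subset_closure (Finset.mem_coe.2 hx)
  have hfg : Module.Finite ℤ (AddSubgroup.closure (A : Set G)) := by
    rw [Module.Finite.iff_addGroup_fg]
    exact (AddGroup.fg_iff_addSubgroup_fg _).2 ⟨A, rfl⟩
  have htf : Module.IsTorsionFree ℤ (AddSubgroup.closure (A : Set G)) := by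
    constructor
    intro r hr x y hxy
    have h0 : r • (x - y) = 0 := by
      rw [smul_sub, sub_eq_zero]
      exact hxy
    have hr0 : r ≠ 0 := hr.ne_zero
    have h1 : (r.natAbs : ℤ) • (x - y) = 0 := by
      rcases Int.natAbs_eq r with h | h
      · rw [← h]; exact h0
      · rw [h, neg_smul, neg_eq_zero] at h0
        exact h0
    have h2 : r.natAbs • ((x - y : AddSubgroup.closure (A : Set G)) : G) = 0 := by
      have := congrArg Subtype.val h1
      rw [natCast_zsmul] at this
      exact_mod_cast this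
    have h3 := hG r.natAbs r.natAbs (Int.natAbs_pos.2 hr0) le_rfl _ h2
    exact sub_eq_zero.1 (Subtype.ext h3)
  have hfree : Module.Free ℤ (AddSubgroup.closure (A : Set G)) := by
    infer_instance
  let b := Module.Free.chooseBasis ℤ (AddSubgroup.closure (A : Set G))
  let e : AddSubgroup.closure (A : Set G) ≃+
      (Module.Free.ChooseBasisIndex ℤ (AddSubgroup.closure (A : Set G)) → ℤ) :=
    b.equivFun.toAddEquiv
  let A' : Finset (Module.Free.ChooseBasisIndex ℤ (AddSubgroup.closure (A : Set G)) → ℤ) :=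
    A.attach.image fun x : {x // x ∈ A} => e ⟨x.1, hmem x.1 x.2⟩
  obtain ⟨φ, hφ⟩ := exists_functional_pi A'
  refine ⟨φ.comp e.toAddMonoidHom, ?_⟩
  intro x hx y hy hxA hyA h
  have h1 := hφ (Finset.mem_coe.2 (Finset.mem_image.2 ⟨⟨x, hxA⟩, Finset.mem_attach _ _, rfl⟩))
    (Finset.mem_coe.2 (Finset.mem_image.2 ⟨⟨y, hyA⟩, Finset.mem_attach _ _, rfl⟩)) h
  have h2 := e.injective h1
  exact congrArg Subtype.val h2

/-- The lower bound: an arithmetic progression. -/
lemma T_lower {G : Type*} [AddCommGroup G] (hG : ∀ m, NoSmallTorsion G m) (g : G) (hg : g ≠ 0)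
    (n : ℕ) : ∃ A : Finset G, A.card = n ∧ (n : ℝ) ^ 2 / 3 - n ≤ T A := by
  classical
  have hinj : Function.Injective fun k : ℤ => k • g := by
    intro k l h
    by_contra hne
    have h0 : (k - l) • g = 0 := by rw [sub_smul, sub_eq_zero]; exact h
    have h1 : (k - l).natAbs • g = 0 := by
      rw [← natCast_zsmul]
      rcases Int.natAbs_eq (k - l) with h | h
      · rw [← h]; exact h0
      · rw [h, neg_smul, neg_eq_zero] at h0
        exact h0
    exact hg (hG _ _ (Int.natAbs_pos.2 (sub_ne_zero.2 hne)) le_rfl _ h1)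
  refine ⟨(Finset.Ico (0 : ℤ) n).image fun k : ℤ => k • g, ?_, ?_⟩
  · rw [Finset.card_image_of_injective _ hinj]
    simp
  · refine le_trans (Pool.Agent.M4074F.lower n) ?_
    have h1 : (((Finset.Ico (0:ℤ) n) ×ˢ (Finset.Ico (0:ℤ) n)).filter
        (fun (x, y) ↦ x ≠ y ∧ x + 3 * (y - x) ∈ (Finset.Ico (0:ℤ) n))).card ≤
          T (Finset.Ico (0 : ℤ) n) := by
      unfold T
      apply Finset.card_le_card
      rintro ⟨x, y⟩ h
      rw [mem_copies]
      simp only [Finset.mem_filter, Finset.mem_product] at h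
      refine ⟨h.1, h.2.1, ?_⟩
      have := h.2.2
      simp only [nsmul_eq_mul]
      exact_mod_cast this
    have h2 := T_le_image (Finset.Ico (0 : ℤ) n) (fun k : ℤ => k • g) hinj.injOn (by
      intro x _ y _ z _ h
      rw [← h, ← sub_smul, ← natCast_zsmul, smul_smul, ← add_smul]
      congr 1)
    exact_mod_cast h1.trans h2

/-- The bound for torsion-free groups. -/
lemma T_torsionFree {G : Type*} [AddCommGroup G] (hG : ∀ m, NoSmallTorsion G m)
    (A : Finset G) : (T A : ℝ) ≤ (A.card : ℝ) ^ 2 / 3 + 7 * A.card := by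
  classical
  obtain ⟨φ, hφ⟩ := exists_functional hG A
  have hmem : ∀ x ∈ A, x ∈ AddSubgroup.closure (A : Set G) := fun x hx =>
    AddSubgroup.subset_closure (Finset.mem_coe.2 hx)
  let f : G → ℤ := fun x => if hx : x ∈ AddSubgroup.closure (A : Set G) then φ ⟨x, hx⟩ else 0
  have hf : ∀ x (hx : x ∈ AddSubgroup.closure (A : Set G)), f x = φ ⟨x, hx⟩ := by
    intro x hx
    simp only [f, dif_pos hx]
  have hinj : Set.InjOn f A := by
    intro x hx y hy h
    rw [hf x (hmem x hx), hf y (hmem y hy)] at h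
    exact hφ x _ y _ hx hy h
  have h1 := T_le_image A f hinj (by
    intro x hx y hy z hz h
    rw [hf x (hmem x hx), hf y (hmem y hy), hf z (hmem z hz), ← map_sub, ← map_nsmul, ← map_add]
    congr 1
    exact Subtype.ext h)
  have h2 := T_int (A.image f)
  rw [Finset.card_image_of_injOn hinj] at h2
  have h1' : (T A : ℝ) ≤ (T (A.image f) : ℝ) := by exact_mod_cast h1
  linarith

/-- The bound for groups without small torsion, by a limit of groups. -/
lemma T_large_order (n : ℕ) : ∃ m : ℕ, ∀ (G : Type u) [AddCommGroup G], NoSmallTorsion G m →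
    ∀ A : Finset G, A.card = n → (T A : ℝ) ≤ (n : ℝ) ^ 2 / 3 + 7 * n := by
  classical
  by_contra hcon
  push Not at hcon
  choose G inst hG A hA hT using hcon
  let e : ∀ m, A m ≃ Fin n := fun m => Finset.equivFinOfCardEq (hA m)
  let a : ∀ m, Fin n → G m := fun m i => ((e m).symm i).1
  have ha_inj : ∀ m, Function.Injective (a m) := fun m i j h =>
    (e m).symm.injective (Subtype.ext h)
  have ha_e : ∀ m x (hx : x ∈ A m), a m (e m ⟨x, hx⟩) = x := by
    intro m x hx
    simp only [a, Equiv.symm_apply_apply]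
  let S : ℕ → Set (Fin n × Fin n × Fin n) := fun m =>
    {t | a m t.1 + 3 • (a m t.2.1 - a m t.1) = a m t.2.2}
  obtain ⟨S0, hS0⟩ := Finite.exists_infinite_fiber S
  set I : Set ℕ := S ⁻¹' {S0} with hI
  have hIinf : I.Infinite := Set.infinite_coe_iff.1 hS0
  let F : Filter ℕ := atTop ⊓ 𝓟 I
  have hF : F.NeBot := by
    rw [inf_principal_neBot_iff]
    intro U hU
    obtain ⟨N, hN⟩ := mem_atTop_sets.1 hU
    obtain ⟨k, hkI, hk⟩ := hIinf.exists_gt N
    exact ⟨k, hN k hk.le, hkI⟩
  have hFI : ∀ᶠ m in F, m ∈ I := Filter.mem_inf_of_right (mem_principal_self I)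
  have hFk : ∀ k : ℕ, ∀ᶠ m in F, k ≤ m := fun k => Filter.mem_inf_of_left (eventually_ge_atTop k)
  let Z : AddSubgroup (∀ m, G m) :=
    { carrier := {x | ∀ᶠ m in F, x m = 0}
      zero_mem' := by
        change ∀ᶠ m in F, (0 : ∀ m, G m) m = 0
        exact Filter.Eventually.of_forall fun m => rfl
      add_mem' := fun {x y} hx hy => by
        change ∀ᶠ m in F, x m = 0 at hx
        change ∀ᶠ m in F, y m = 0 at hy
        change ∀ᶠ m in F, (x + y) m = 0
        filter_upwards [hx, hy] with m h1 h2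
        rw [Pi.add_apply, h1, h2, add_zero]
      neg_mem' := fun {x} hx => by
        change ∀ᶠ m in F, x m = 0 at hx
        change ∀ᶠ m in F, (-x) m = 0
        filter_upwards [hx] with m h1
        rw [Pi.neg_apply, h1, neg_zero] }
  have hZ : ∀ x : (∀ m, G m), x ∈ Z ↔ ∀ᶠ m in F, x m = 0 := fun x => Iff.rfl
  have hQ : ∀ m, NoSmallTorsion ((∀ m, G m) ⧸ Z) m := by
    intro _ k hk _ q hq
    induction q using QuotientAddGroup.induction_on with
    | H x =>
      have h1 : k • x ∈ Z := by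
        rw [← QuotientAddGroup.eq_zero_iff]
        exact hq
      rw [QuotientAddGroup.eq_zero_iff, hZ]
      rw [hZ] at h1
      filter_upwards [h1, hFk k] with m h2 h3
      exact hG m k hk h3 (x m) h2
  let α : Fin n → (∀ m, G m) ⧸ Z := fun i => QuotientAddGroup.mk fun m => a m i
  have hα : Function.Injective α := by
    intro i j h
    have h1 : -(fun m => a m i) + (fun m => a m j) ∈ Z := QuotientAddGroup.eq.1 h
    rw [hZ] at h1
    obtain ⟨m, hm⟩ := h1.exists
    rw [Pi.add_apply, Pi.neg_apply, neg_add_eq_zero] at hm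
    exact ha_inj m hm
  obtain ⟨m0, hm0⟩ := hFI.exists
  let f : G m0 → (∀ m, G m) ⧸ Z := fun g =>
    if h : g ∈ A m0 then α (e m0 ⟨g, h⟩) else 0
  have hf : ∀ g (hg : g ∈ A m0), f g = α (e m0 ⟨g, hg⟩) := fun g hg => by
    simp only [f, dif_pos hg]
  have hinj : Set.InjOn f (A m0) := by
    intro x hx y hy h
    rw [hf x hx, hf y hy] at h
    exact congrArg Subtype.val ((e m0).injective (hα h))
  have h1 := T_le_image (A m0) f hinj (by
    intro x hx y hy z hz h
    rw [hf x hx, hf y hy, hf z hz]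
    have hS : (e m0 ⟨x, hx⟩, e m0 ⟨y, hy⟩, e m0 ⟨z, hz⟩) ∈ S m0 := by
      simp only [S, Set.mem_ofPred_eq, ha_e]
      exact h
    have hm0' : S m0 = S0 := hm0
    rw [hm0'] at hS
    have hZm : -((fun m => a m (e m0 ⟨x, hx⟩)) + 3 • ((fun m => a m (e m0 ⟨y, hy⟩)) -
        (fun m => a m (e m0 ⟨x, hx⟩)))) + (fun m => a m (e m0 ⟨z, hz⟩)) ∈ Z := by
      rw [hZ]
      filter_upwards [hFI] with m hm
      have hm' : S m = S0 := hm
      rw [← hm'] at hS
      simp only [S, Set.mem_ofPred_eq] at hS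
      rw [Pi.add_apply, Pi.neg_apply, neg_add_eq_zero]
      exact hS
    exact QuotientAddGroup.eq.2 hZm)
  have h2 := T_torsionFree hQ ((A m0).image f)
  rw [Finset.card_image_of_injOn hinj, hA m0] at h2
  have h1' : (T (A m0) : ℝ) ≤ (T ((A m0).image f) : ℝ) := by exact_mod_cast h1
  have := hT m0
  linarith

lemma M_bdd (n : ℕ) : BddAbove {k | ∃ A : Finset ℤ, A.card = n ∧ T A = k} := by
  classical
  refine ⟨n * n, ?_⟩
  rintro k ⟨A, hA, rfl⟩
  have h1 : T A ≤ (A ×ˢ A).card := by
    unfold T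
    apply Finset.card_le_card
    intro p hp
    rw [mem_copies] at hp
    exact Finset.mem_product.2 hp.1
  rw [Finset.card_product, hA] at h1
  exact h1

lemma int_noSmallTorsion (m : ℕ) : NoSmallTorsion ℤ m := by
  intro k hk _ g hg
  rw [nsmul_eq_mul, mul_eq_zero] at hg
  rcases hg with h | h
  · exfalso; omega
  · exact h

lemma M_upper (n : ℕ) : (M n : ℝ) ≤ (n : ℝ) ^ 2 / 3 + 7 * n := by
  have hne : {k | ∃ A : Finset ℤ, A.card = n ∧ T A = k}.Nonempty := by
    obtain ⟨A, _, hA⟩ := Set.infinite_univ.exists_subset_card_eq (α := ℤ) n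
    exact ⟨_, A, hA, rfl⟩
  obtain ⟨A, hA, hk⟩ := Nat.sSup_mem hne (M_bdd n)
  have := T_int A
  rw [hA, hk] at this
  exact this

lemma M_lower (n : ℕ) : (n : ℝ) ^ 2 / 3 - n ≤ (M n : ℝ) := by
  obtain ⟨A, hA, h⟩ := T_lower int_noSmallTorsion 1 one_ne_zero n
  refine h.trans ?_
  have : T A ≤ M n := le_csSup (M_bdd n) ⟨A, hA, rfl⟩
  exact_mod_cast this

lemma M_tendsto : Tendsto (fun n : ℕ => (M n : ℝ) / (n : ℝ) ^ 2) atTop (𝓝 (1 / 3)) := by
  have t0 : Tendsto (fun n : ℕ => (1:ℝ) / n) atTop (𝓝 0) := tendsto_one_div_atTop_nhds_zero_nat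
  have tl : Tendsto (fun n : ℕ => (1/3 : ℝ) - 1 / n) atTop (𝓝 (1/3)) := by
    simpa using t0.const_sub (1/3 : ℝ)
  have tu : Tendsto (fun n : ℕ => (1/3 : ℝ) + 7 * (1 / n)) atTop (𝓝 (1/3)) := by
    simpa using (t0.const_mul 7).const_add (1/3 : ℝ)
  refine tendsto_of_tendsto_of_tendsto_of_le_of_le' tl tu ?_ ?_
  · filter_upwards [eventually_gt_atTop 0] with n hn
    have hn' : (0:ℝ) < n := by exact_mod_cast hn
    rw [le_div_iff₀ (by positivity)]
    have := M_lower n
    have e : ((1:ℝ)/3 - 1 / n) * (n:ℝ)^2 = (n : ℝ) ^ 2 / 3 - n := by field_simp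
    rw [e]; exact this
  · filter_upwards [eventually_gt_atTop 0] with n hn
    have hn' : (0:ℝ) < n := by exact_mod_cast hn
    rw [div_le_iff₀ (by positivity)]
    have := M_upper n
    have e : ((1:ℝ)/3 + 7 * (1 / n)) * (n:ℝ)^2 = (n : ℝ) ^ 2 / 3 + 7 * n := by field_simp
    rw [e]; exact this

/-- **The extremal number of affine copies of `{0, 1, 3}` in abelian groups.**

(1) In every torsion-free abelian group, `T(A) ≤ |A|² / 3 + 7 |A|` for every finite set `A`.
(2) In every nontrivial torsion-free abelian group and for every `n` some set `A` of `n` elements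
has `T(A) ≥ n² / 3 - n`.
(3) For every `n` there is `m` such that `T(A) ≤ n² / 3 + 7 n` for every set `A` of `n` elements of
every abelian group in which no nonzero element has order at most `m`.
(4) For the integers `n² / 3 - n ≤ M(n) ≤ n² / 3 + 7 n` for every `n`, so `M(n) / n²` converges to
`1 / 3` and `γ = limsup M(n) / n² = 1 / 3`. -/
theorem result :
    (∀ (G : Type u) [AddCommGroup G] [IsAddTorsionFree G] (A : Finset G),
      (T A : ℝ) ≤ (A.card : ℝ) ^ 2 / 3 + 7 * A.card) ∧
    (∀ (G : Type u) [AddCommGroup G] [IsAddTorsionFree G] [Nontrivial G] (n : ℕ),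
      ∃ A : Finset G, A.card = n ∧ (n : ℝ) ^ 2 / 3 - n ≤ T A) ∧
    (∀ n : ℕ, ∃ m : ℕ, ∀ (G : Type u) [AddCommGroup G], NoSmallTorsion G m →
      ∀ A : Finset G, A.card = n → (T A : ℝ) ≤ (n : ℝ) ^ 2 / 3 + 7 * n) ∧
    (∀ n : ℕ, (n : ℝ) ^ 2 / 3 - n ≤ M n ∧ (M n : ℝ) ≤ (n : ℝ) ^ 2 / 3 + 7 * n) ∧
    Tendsto (fun n : ℕ => (M n : ℝ) / (n : ℝ) ^ 2) atTop (𝓝 (1 / 3)) ∧
    limsup (fun n : ℕ => (M n : ℝ) / (n : ℝ) ^ 2) atTop = 1 / 3 := by
  have htf : ∀ (G : Type u) [AddCommGroup G] [IsAddTorsionFree G] (m : ℕ), NoSmallTorsion G m := by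
    intro G _ _ m k hk _ g hg
    exact (smul_eq_zero.1 hg).resolve_left hk.ne'
  refine ⟨?_, ?_, T_large_order, fun n => ⟨M_lower n, M_upper n⟩, M_tendsto, M_tendsto.limsup_eq⟩
  · intro G _ _ A
    exact T_torsionFree (htf G) A
  · intro G _ _ _ n
    obtain ⟨g, hg⟩ := exists_ne (0 : G)
    exact T_lower (htf G) g hg n

end Pool.Agent.Results.MP_b15886_co.TorsionFreeThird
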